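import Pool.Agent.Y56.AB.Blk

/-! An automorphism which expands short intervals. -/

namespace Pool.Agent.Y56.AB

open Pool.Agent.Helper539.LG

/-- The positive elements of an ordered field. -/
abbrev Ps (K : Type*) [Field K] [LinearOrder K] := {x : K // 0 < x}

variable {K : Type*} [Field K] [LinearOrder K] [IsStrictOrderedRing K]

theorem exists_s {α β : Ps K} (hβ : 1 < β) (hβα : β < α) : ∃ s : Aut (Ps K),
    (∀ x, x ≤ s x) ∧ (∀ x, s x ≤ α * x) ∧
      ∀ x, α * x ≤ s⁻¹ (β * s (β * (s⁻¹ (β * s (β * x))))) := by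
  have hα : 1 < α := hβ.trans hβα
  have hα' : (1 : K) < α := hα
  have hβ' : (1 : K) < β := hβ
  have hβα' : (β : K) < α := hβα
  obtain ⟨F, F1, F2, F3, F4⟩ := exists_blocks hα
  let u : Ps K → K := fun x => (x : K) / (F x : K)
  have F1' : ∀ x, (F x : K) ≤ x := fun x => F1 x
  have F2' : ∀ x : Ps K, (x : K) < α * F x := fun x => F2 x
  have hu1 : ∀ x, 1 ≤ u x := fun x => by
    show 1 ≤ (x : K) / (F x : K)
    rw [le_div_iff₀ (F x).2, one_mul]; exact F1' x
  have hu2 : ∀ x, u x < α := fun x => by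
    show (x : K) / (F x : K) < α
    rw [div_lt_iff₀ (F x).2]; exact F2' x
  have hxu : ∀ x : Ps K, (F x : K) * u x = x := fun x => by
    show (F x : K) * ((x : K) / (F x : K)) = x
    rw [mul_div_cancel₀]
    exact (F x).2.ne'
  have ht : ∀ x, 0 ≤ tt (α : K) (u x) := fun x => tt_nonneg (hu1 x) (hu2 x)
  let sf : Ps K → Ps K → Ps K := fun l x =>
    ⟨(F x : K) * uu (α : K) (l * tt (α : K) (u x)), mul_pos (F x).2
      (lt_of_lt_of_le one_pos (one_le_uu hα' (mul_nonneg l.2.le (ht x))))⟩
  have sf_val : ∀ l x, (sf l x : K) = (F x : K) * uu (α : K) (l * tt (α : K) (u x)) :=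
    fun _ _ => rfl
  have hlo : ∀ l x, F x ≤ sf l x := by
    intro l x
    show (F x : K) ≤ (F x : K) * uu (α : K) (l * tt (α : K) (u x))
    exact le_mul_of_one_le_right (F x).2.le (one_le_uu hα' (mul_nonneg l.2.le (ht x)))
  have hhi : ∀ l x, sf l x < α * F x := by
    intro l x
    show (F x : K) * uu (α : K) (l * tt (α : K) (u x)) < (α : K) * (F x : K)
    rw [mul_comm (α : K)]
    exact mul_lt_mul_of_pos_left (uu_lt hα' (mul_nonneg l.2.le (ht x))) (F x).2
  have hFs : ∀ l x, F (sf l x) = F x := fun l x => F3 x _ (hlo l x) (hhi l x)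
  have hus : ∀ l x, u (sf l x) = uu (α : K) (l * tt (α : K) (u x)) := by
    intro l x
    show (sf l x : K) / (F (sf l x) : K) = _
    rw [hFs, sf_val, mul_div_cancel_left₀]
    exact (F x).2.ne'
  have hcomp : ∀ m l x, sf m (sf l x) = sf (m * l) x := by
    intro m l x
    apply Subtype.ext
    rw [sf_val, sf_val, hFs, hus, tt_uu hα' (mul_nonneg l.2.le (ht x))]
    congr 2
    show (m : K) * ((l : K) * _) = (m : K) * (l : K) * _
    rw [mul_assoc]
  have hone : ∀ x, sf 1 x = x := by
    intro x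
    apply Subtype.ext
    rw [sf_val]
    have : ((1 : Ps K) : K) * tt (α : K) (u x) = tt (α : K) (u x) := one_mul _
    rw [this, uu_tt hα' (hu2 x), hxu]
  have hblock : ∀ x y, F x < F y → α * F x ≤ F y := by
    intro x y h
    by_contra hcon
    push Not at hcon
    have h1 : F (F y) = F x := F3 x _ h.le hcon
    have h2 : F (F y) = F y := F3 y _ le_rfl (by
      have := mulL_lt hα (F y)
      rwa [mul_one, mul_comm] at this)
    rw [h1] at h2
    exact h.ne h2
  have hFmono : ∀ x y, x ≤ y → F x ≤ F y := by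
    intro x y h
    by_contra hcon
    push Not at hcon
    have h1 := hblock _ _ hcon
    exact absurd (((F2 y).trans_le h1).trans_le (F1 x)) (not_lt.mpr h)
  have hmono : ∀ l, StrictMono (sf l) := by
    intro l x y h
    rcases (hFmono x y h.le).lt_or_eq with h1 | h1
    · exact ((hhi l x).trans_le (hblock _ _ h1)).trans_le (hlo l y)
    · show (F x : K) * uu (α : K) (l * tt (α : K) (u x)) <
        (F y : K) * uu (α : K) (l * tt (α : K) (u y))
      rw [h1]
      have h2 : u x < u y := by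
        show (x : K) / (F x : K) < (y : K) / (F y : K)
        rw [h1]
        have h' : (x : K) < y := h
        exact div_lt_div_of_pos_right h' (F y).2
      refine mul_lt_mul_of_pos_left (uu_lt_uu hα' (mul_nonneg l.2.le (ht x)) ?_) (F y).2
      exact mul_lt_mul_of_pos_left (tt_lt_tt hα' h2 (hu2 y)) l.2
  have htβ : 0 < tt (α : K) (β : K) := div_pos (by linarith) (by linarith)
  have hq1 : (1 : K) ≤ α / β := by
    rw [le_div_iff₀ β.2, one_mul]; exact hβα'.le
  have hq2 : (α : K) / β < α := div_lt_self α.2 hβ'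
  have htq : 0 ≤ tt (α : K) ((α : K) / β) := tt_nonneg hq1 hq2
  have hl0 : 0 < 1 + tt (α : K) ((α : K) / β) / tt (α : K) (β : K) := by positivity
  let l : Ps K := ⟨1 + tt (α : K) ((α : K) / β) / tt (α : K) (β : K), hl0⟩
  have hl1 : (1 : K) ≤ l := by
    show (1 : K) ≤ 1 + tt (α : K) ((α : K) / β) / tt (α : K) (β : K)
    have : 0 ≤ tt (α : K) ((α : K) / β) / tt (α : K) (β : K) := div_nonneg htq htβ.le
    linarith
  have hlβ : tt (α : K) ((α : K) / β) ≤ l * tt (α : K) (β : K) := by
    show _ ≤ (1 + tt (α : K) ((α : K) / β) / tt (α : K) (β : K)) * tt (α : K) (β : K)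
    rw [add_mul, one_mul, div_mul_cancel₀ _ htβ.ne']
    linarith
  let s : Aut (Ps K) := mkAut (sf l) (sf l⁻¹)
    (fun x => by rw [hcomp, inv_mul_cancel, hone]) (fun x => by rw [hcomp, mul_inv_cancel, hone])
    (hmono l)
  have s_apply : ∀ x, s x = sf l x := fun x => rfl
  have hfix : ∀ w, F w = w → s w = w := by
    intro w hw
    rw [s_apply]
    apply Subtype.ext
    have h1 : u w = 1 := by
      show (w : K) / (F w : K) = 1
      rw [hw]; exact div_self w.2.ne'
    rw [sf_val, h1, hw]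
    have h2 : tt (α : K) 1 = 0 := by unfold tt; rw [sub_self, zero_div]
    have h3 : uu (α : K) 0 = 1 := by unfold uu; rw [mul_zero, add_zero, div_one]
    rw [h2, mul_zero, h3, mul_one]
  have hfix' : ∀ w, F w = w → s⁻¹ w = w := by
    intro w hw
    have h1 : s⁻¹ (s w) = s⁻¹ w := by rw [hfix w hw]
    rw [Aut.inv_apply] at h1
    exact h1.symm
  have hFF : ∀ x, F (F x) = F x := fun x => F3 x _ le_rfl (by
      have := mulL_lt hα (F x)
      rwa [mul_one, mul_comm] at this)
  have hp : ∀ w, F w = w → α * w ≤ s⁻¹ (β * s (β * w)) := by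
    intro w hw
    have hFβ : F (β * w) = w := by
      have := F3 w (β * w) (by rw [hw]; exact le_mul_of_one_le_left' hβ.le)
        (by rw [hw]; exact mul_lt_mul_left hβα w)
      rw [this, hw]
    have huβ : u (β * w) = β := by
      show ((β * w : Ps K) : K) / (F (β * w) : K) = β
      rw [hFβ]
      show (β : K) * (w : K) / (w : K) = β
      rw [mul_div_assoc, div_self w.2.ne', mul_one]
    have h1 : α * w ≤ β * s (β * w) := by
      rw [s_apply]
      show (α : K) * (w : K) ≤ (β : K) * (sf l (β * w) : K)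
      rw [sf_val, huβ, hFβ]
      have h2 : (α : K) / β ≤ uu (α : K) (l * tt (α : K) (β : K)) := by
        have h3 := uu_le_uu hα' htq hlβ
        rwa [uu_tt hα' hq2] at h3
      rw [div_le_iff₀ β.2] at h2
      have h4 := mul_le_mul_of_nonneg_right h2 w.2.le
      linarith
    have h2 : F (α * w) = α * w := by rw [F4, hw]
    rw [← hfix' _ h2]
    exact (s⁻¹).le_apply.mpr h1
  have hpm : ∀ x y, x ≤ y → s⁻¹ (β * s (β * x)) ≤ s⁻¹ (β * s (β * y)) := by
    intro x y h
    exact (s⁻¹).le_apply.mpr (mulL_le (s.le_apply.mpr (mulL_le h β)) β)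
  refine ⟨s, ?_, ?_, ?_⟩
  · intro x
    rw [s_apply]
    show (x : K) ≤ (sf l x : K)
    rw [sf_val]
    calc (x : K) = (F x : K) * u x := (hxu x).symm
      _ = (F x : K) * uu (α : K) (tt (α : K) (u x)) := by rw [uu_tt hα' (hu2 x)]
      _ ≤ _ := mul_le_mul_of_nonneg_left
          (uu_le_uu hα' (ht x) (le_mul_of_one_le_left (ht x) hl1)) (F x).2.le
  · intro x
    rw [s_apply]
    exact (hhi l x).le.trans (mulL_le (F1 x) α)
  · intro x
    have h1 : α * F x ≤ s⁻¹ (β * s (β * x)) := (hp _ (hFF x)).trans (hpm _ _ (F1 x))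
    have h2 : F (α * F x) = α * F x := by rw [F4, hFF]
    have h3 := (hp _ h2).trans (hpm _ _ h1)
    exact (mulL_le (F2 x).le α).trans h3

end Pool.Agent.Y56.AB
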