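import Pool.Agent.Y56.AB.Hol
import Pool.Agent.Y56.AB.Sx

/-! The two extensions of a totally ordered abelian group which is not archimedean. -/

namespace Pool.Agent.Y56.AB

open Pool.Agent.Helper539.LG

universe u v

section

variable {A : Type u} [Group A] [Lattice A] [MulLeftMono A] [MulRightMono A]

/-- The representation given by a left invariant prime total preorder. -/
theorem holland_of {c b : A} (L : A → A → Prop) (hle : ∀ x y, x ≤ y → L x y)
    (htr : ∀ x y z, L x y → L y z → L x z) (hto : ∀ x y, L x y ∨ L y x)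
    (hl : ∀ x y z, L x y → L (z * x) (z * y))
    (hp : ∀ g h, g ⊓ h = 1 → ∀ k, L (g * k) k ∨ L (h * k) k) (hLc : ¬ L c 1)
    (hb1 : ∀ k, L (b * k) k) (hb2 : ∀ k, L k (b * k)) :
    ∃ (Ω : Type u) (_ : LinearOrder Ω) (ρ : A →* Aut Ω), IsLHom ρ ∧
      ρ b = 1 ∧ ∃ p, p < ρ c p := by
  classical
  have hrefl : ∀ x, L x x := fun x => hle _ _ le_rfl
  let S : Setoid A :=
    { r := fun x y => L x y ∧ L y x
      iseqv := ⟨fun x => ⟨hrefl x, hrefl x⟩, fun h => ⟨h.2, h.1⟩,
        fun h1 h2 => ⟨htr _ _ _ h1.1 h2.1, htr _ _ _ h2.2 h1.2⟩⟩ }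
  let Ω : Type u := Pt S
  let le' : Ω → Ω → Prop := Quotient.lift₂ (s₁ := S) (s₂ := S) L (by
    intro a1 b1 a2 b2 h1 h2
    apply propext
    constructor
    · intro h
      exact htr _ _ _ h1.2 (htr _ _ _ h h2.1)
    · intro h
      exact htr _ _ _ h1.1 (htr _ _ _ h h2.2))
  let O : LinearOrder Ω :=
    { le := le'
      lt := fun x y => le' x y ∧ ¬ le' y x
      lt_iff_le_not_ge := fun _ _ => Iff.rfl
      le_refl := by
        intro x
        induction x using Quotient.inductionOn with | _ x => exact hrefl x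
      le_trans := by
        intro x y z
        induction x using Quotient.inductionOn with | _ x => ?_
        induction y using Quotient.inductionOn with | _ y => ?_
        induction z using Quotient.inductionOn with | _ z => ?_
        exact htr x y z
      le_antisymm := by
        intro x y
        induction x using Quotient.inductionOn with | _ x => ?_
        induction y using Quotient.inductionOn with | _ y => ?_
        intro h1 h2
        exact Quotient.sound ⟨h1, h2⟩
      le_total := by
        intro x y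
        induction x using Quotient.inductionOn with | _ x => ?_
        induction y using Quotient.inductionOn with | _ y => ?_
        exact hto x y
      toDecidableLE := Classical.decRel _ }
  let act : A → Ω → Ω := fun g => Quotient.map (sa := S) (sb := S) (fun x => g * x)
    (fun x y h => ⟨hl _ _ g h.1, hl _ _ g h.2⟩)
  have act_mul : ∀ g h p, act (g * h) p = act g (act h p) := by
    intro g h p
    induction p using Quotient.inductionOn with | _ x => ?_
    show Quotient.mk S (g * h * x) = Quotient.mk S (g * (h * x))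
    rw [mul_assoc]
  have act_one : ∀ p, act 1 p = p := by
    intro p
    induction p using Quotient.inductionOn with | _ x => ?_
    show Quotient.mk S (1 * x) = Quotient.mk S x
    rw [one_mul]
  have act_le : ∀ g (p q : Ω), p ≤ q → act g p ≤ act g q := by
    intro g p q
    induction p using Quotient.inductionOn with | _ x => ?_
    induction q using Quotient.inductionOn with | _ y => ?_
    intro h
    exact hl x y g h
  let e : A → Aut Ω := fun g =>
    ({ toFun := act g
       invFun := act g⁻¹
       left_inv := fun p => by rw [← act_mul, inv_mul_cancel, act_one]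
       right_inv := fun p => by rw [← act_mul, mul_inv_cancel, act_one]
       map_rel_iff' := by
        intro p q
        constructor
        · intro h
          have := act_le g⁻¹ _ _ h
          simp only [Equiv.coe_fn_mk] at this
          rwa [← act_mul, ← act_mul, inv_mul_cancel, act_one, act_one] at this
        · exact act_le g p q } : Ω ≃o Ω)
  have e_apply : ∀ g p, e g p = act g p := fun g p => rfl
  let ρ : A →* Aut Ω :=
    { toFun := e
      map_one' := Aut.ext fun p => act_one p
      map_mul' := fun g h => Aut.ext fun p => act_mul g h p }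
  refine ⟨Ω, O, ρ, ?_, ?_, ?_⟩
  · intro x y
    apply Aut.ext
    intro p
    rw [Aut.sup_apply]
    have hmono : ∀ g h : A, g ≤ h → act g p ≤ act h p := by
      intro g h hgh
      induction p using Quotient.inductionOn with | _ k => ?_
      exact hle _ _ (mulRR hgh k)
    apply le_antisymm
    · show act (x ⊔ y) p ≤ max (act x p) (act y p)
      induction p using Quotient.inductionOn with | _ k => ?_
      have h1 := pos_inf_pos (x * y⁻¹)
      have e1 : (x * y⁻¹ ⊔ 1) * y = x ⊔ y := by
        rw [sup_mul, one_mul, inv_mul_cancel_right]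
      have e2 : x * y⁻¹ * ((x * y⁻¹)⁻¹ ⊔ 1) = x * y⁻¹ ⊔ 1 := by
        rw [mul_sup, mul_inv_cancel, mul_one, sup_comm]
      rcases hp _ _ h1 (y * k) with h | h
      · refine le_trans ?_ (le_max_right _ _)
        show L ((x ⊔ y) * k) (y * k)
        rwa [← mul_assoc, e1] at h
      · refine le_trans ?_ (le_max_left _ _)
        show L ((x ⊔ y) * k) (x * k)
        have h2 := hl _ _ (x * y⁻¹) h
        rw [← mul_assoc, e2, ← mul_assoc, e1] at h2
        have e3 : x * y⁻¹ * (y * k) = x * k := by group
        rwa [e3] at h2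
    · exact max_le (hmono _ _ le_sup_left) (hmono _ _ le_sup_right)
  · apply Aut.ext
    intro p
    induction p using Quotient.inductionOn with | _ x => ?_
    exact Quotient.sound ⟨hb1 x, hb2 x⟩
  · refine ⟨Quotient.mk S 1, ?_⟩
    refine lt_of_not_ge (fun h => ?_)
    apply hLc
    have h2 : L (c * 1) 1 := h
    rwa [mul_one] at h2

end

section Mul

variable {K : Type*} [Field K] [LinearOrder K] [IsStrictOrderedRing K]

/-- Multiplication by a positive element. -/
def mulAut (c : Ps K) : Aut (Ps K) := mkAut (fun x => c * x) (fun x => c⁻¹ * x)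
  (fun x => inv_mul_cancel_left c x) (fun x => mul_inv_cancel_left c x)
  (fun _ _ h => mulL_lt h c)

theorem mulAut_apply (c x : Ps K) : mulAut c x = c * x := rfl

/-- Multiplication by a positive element, as a homomorphism. -/
def mulHom : Ps K →* Aut (Ps K) where
  toFun := mulAut
  map_one' := Aut.ext fun x => one_mul x
  map_mul' c d := Aut.ext fun x => mul_assoc c d x

theorem mulHom_apply (c x : Ps K) : mulHom c x = c * x := rfl

end Mul

section Hahn

variable {A : Type u} [CommGroup A] [LinearOrder A] [IsOrderedMonoid A]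

/-- The Hahn field. -/
abbrev HK (A : Type u) [CommGroup A] [LinearOrder A] [IsOrderedMonoid A] : Type u :=
  Lex (HahnSeries (Additive A) ℚ)

/-- Monomials. -/
noncomputable def mon (x : A) : Ps (HK A) :=
  ⟨toLex (HahnSeries.single (Additive.ofMul x⁻¹) (1 : ℚ)), by
    rw [← HahnSeries.leadingCoeff_pos_iff]
    simp⟩

/-- Monomials, as a homomorphism. -/
noncomputable def monHom : A →* Ps (HK A) where
  toFun := mon
  map_one' := by
    apply Subtype.ext
    show toLex (HahnSeries.single (Additive.ofMul (1 : A)⁻¹) (1 : ℚ)) = toLex 1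
    rw [inv_one, ofMul_one]
    rfl
  map_mul' x y := by
    apply Subtype.ext
    show toLex (HahnSeries.single (Additive.ofMul (x * y)⁻¹) (1 : ℚ)) =
      toLex (HahnSeries.single (Additive.ofMul x⁻¹) (1 : ℚ) *
        HahnSeries.single (Additive.ofMul y⁻¹) (1 : ℚ))
    rw [HahnSeries.single_mul_single, mul_inv, ofMul_mul, mul_one]

theorem one_lt_mon {x : A} (hx : 1 < x) : 1 < monHom x := by
  show (1 : HK A) < toLex (HahnSeries.single (Additive.ofMul x⁻¹) (1 : ℚ))
  rw [HahnSeries.lt_iff]
  have h0 : Additive.ofMul x⁻¹ < 0 := by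
    show x⁻¹ < 1
    exact inv_lt_one'.mpr hx
  refine ⟨Additive.ofMul x⁻¹, ?_, ?_⟩
  · intro j hj
    show (1 : HahnSeries (Additive A) ℚ).coeff j =
      (HahnSeries.single (Additive.ofMul x⁻¹) (1 : ℚ)).coeff j
    rw [HahnSeries.coeff_one, if_neg (hj.trans h0).ne, HahnSeries.coeff_single_of_ne hj.ne]
  · show (1 : HahnSeries (Additive A) ℚ).coeff (Additive.ofMul x⁻¹) <
      (HahnSeries.single (Additive.ofMul x⁻¹) (1 : ℚ)).coeff (Additive.ofMul x⁻¹)
    rw [HahnSeries.coeff_one, if_neg h0.ne, HahnSeries.coeff_single_same]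
    norm_num

theorem mon_lt {x y : A} (h : x < y) : monHom x < monHom y := by
  have h1 : 1 < x⁻¹ * y := by
    rw [lt_inv_mul_iff_mul_lt, mul_one]; exact h
  have h2 := mulL_lt (one_lt_mon h1) (monHom x)
  rwa [mul_one, ← map_mul, mul_inv_cancel_left] at h2

theorem mon_mono : StrictMono (monHom : A → Ps (HK A)) := fun _ _ h => mon_lt h

theorem side_B_lex {a b : A} (hb : 1 < b) (hba : b < a) :
    ∃ (B : Type u) (_ : Group B) (_ : Lattice B) (_ : MulLeftMono B) (_ : MulRightMono B)
      (f : A →* B) (s : B), IsLEmb f ∧ 1 ≤ s ∧ s ≤ f a ∧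
        f a ≤ (s⁻¹ * f b * s * f b) * (s⁻¹ * f b * s * f b) := by
  obtain ⟨s, h1, h2, h3⟩ := exists_s (one_lt_mon hb) (mon_lt hba)
  have hf : IsLHom (mulHom.comp monHom : A →* Aut (Ps (HK A))) := by
    intro x y
    apply Aut.ext
    intro p
    rw [Aut.sup_apply]
    show monHom (x ⊔ y) * p = max (monHom x * p) (monHom y * p)
    rcases le_total x y with h | h
    · rw [sup_eq_right.mpr h, max_eq_right]
      exact mul_le_mul_left (mon_mono.monotone h) p
    · rw [sup_eq_left.mpr h, max_eq_left]
      exact mul_le_mul_left (mon_mono.monotone h) p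
  refine ⟨Aut (Ps (HK A)), inferInstance, inferInstance, inferInstance, inferInstance,
    mulHom.comp monHom, s, ?_, h1, h2, ?_⟩
  · apply hf.emb
    intro x hx h
    have h4 : monHom x * 1 = (1 : Aut (Ps (HK A))) 1 := by rw [← h]; rfl
    rw [mul_one, Aut.one_apply] at h4
    exact (one_lt_mon hx).ne' h4
  · intro x
    exact h3 x

theorem side_C_lex {a b : A} (hb : 1 < b) (hab : ∀ n : ℕ, b ^ n < a) :
    ∃ (C : Type u) (_ : Group C) (_ : Lattice C) (_ : MulLeftMono C) (_ : MulRightMono C)
      (g : A →* C) (v a2 : C), IsLEmb g ∧ 1 ≤ v ∧ v ≠ 1 ∧ 1 ≤ a2 ∧ v ⊓ a2 = 1 ∧ v ⊓ g b = 1 ∧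
        g a = v * a2 := by
  obtain ⟨Ω, _, ρ, h1, h2, p, hp⟩ := holland_of (A := A) (c := a) (b := b)
    (fun x y => ∃ n : ℕ, x ≤ y * b ^ n)
    (fun x y h => ⟨0, by rw [pow_zero, mul_one]; exact h⟩)
    (fun x y z ⟨n, h1⟩ ⟨m, h2⟩ => ⟨m + n, by
      rw [pow_add, ← mul_assoc]; exact h1.trans (mul_le_mul_left h2 _)⟩)
    (fun x y => by
      rcases le_total x y with h | h
      · exact Or.inl ⟨0, by rw [pow_zero, mul_one]; exact h⟩
      · exact Or.inr ⟨0, by rw [pow_zero, mul_one]; exact h⟩)
    (fun x y z ⟨n, h⟩ => ⟨n, by rw [mul_assoc]; exact mulL_le h z⟩)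
    (fun g h hgh k => by
      rcases le_total g h with h1 | h1
      · rw [inf_eq_left.mpr h1] at hgh
        exact Or.inl ⟨0, by rw [pow_zero, mul_one, hgh, one_mul]⟩
      · rw [inf_eq_right.mpr h1] at hgh
        exact Or.inr ⟨0, by rw [pow_zero, mul_one, hgh, one_mul]⟩)
    (fun ⟨n, h⟩ => by
      rw [one_mul] at h
      exact absurd (hab n) (not_lt.mpr h))
    (fun k => ⟨1, by rw [pow_one, mul_comm]⟩)
    (fun k => ⟨0, by rw [pow_zero, mul_one]; exact le_mul_of_one_le_left' hb.le⟩)
  have ha : 1 < a := by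
    have := hab 0
    rwa [pow_zero] at this
  have hf : IsLHom (ρ.prod (MonoidHom.id A)) := by
    intro x y
    exact Prod.ext (h1 x y) rfl
  refine ⟨Aut Ω × A, inferInstance, inferInstance, inferInstance, inferInstance,
    ρ.prod (MonoidHom.id A), (ρ a, 1), (1, a), ?_, ?_, ?_, ?_, ?_, ?_, ?_⟩
  · apply hf.emb
    intro x hx h
    exact hx.ne' (congrArg Prod.snd h)
  · exact ⟨h1.one_le ha.le, le_refl _⟩
  · intro h
    have h3 : ρ a = 1 := congrArg Prod.fst h
    rw [h3, Aut.one_apply] at hp
    exact lt_irrefl _ hp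
  · exact ⟨le_refl _, ha.le⟩
  · apply Prod.ext
    · exact inf_eq_right.mpr (h1.one_le ha.le)
    · exact inf_eq_left.mpr ha.le
  · apply Prod.ext
    · show ρ a ⊓ ρ b = 1
      rw [h2]
      exact inf_eq_right.mpr (h1.one_le ha.le)
    · exact inf_eq_left.mpr hb.le
  · apply Prod.ext
    · exact (mul_one _).symm
    · exact (one_mul _).symm

/-- No amalgam over a totally ordered abelian group which is not archimedean. -/
theorem no_base_lex {a b : A} (hb : 1 < b) (hab : ∀ n : ℕ, b ^ n < a) :
    ∃ (B : Type u) (_ : Group B) (_ : Lattice B) (_ : MulLeftMono B) (_ : MulRightMono B)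
      (C : Type u) (_ : Group C) (_ : Lattice C) (_ : MulLeftMono C) (_ : MulRightMono C)
      (f : A →* B) (g : A →* C),
      IsLEmb f ∧ IsLEmb g ∧
      ∀ (D : Type v) [Group D] [Lattice D] [MulLeftMono D] [MulRightMono D]
        (f' : B →* D) (g' : C →* D), IsLEmb f' → IsLEmb g' → f'.comp f ≠ g'.comp g := by
  have hba : b < a := by
    have := hab 1
    rwa [pow_one] at this
  obtain ⟨B, i1, i2, i3, i4, f, s, hf, b1, b2, b3⟩ := side_B_lex hb hba
  obtain ⟨C, j1, j2, j3, j4, g, w, a2, hg, c1, c2, c3, c4, c5, c6⟩ := side_C_lex hb hab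
  refine ⟨B, i1, i2, i3, i4, C, j1, j2, j3, j4, f, g, hf, hg, ?_⟩
  intro D _ _ _ _ f' g' hf' hg' e
  have hx : ∀ x, f' (f x) = g' (g x) := fun x => congrArg (fun φ => φ x) e
  refine no_amalgam_lex (a := g' (g a)) (b := g' (g b)) (v := g' w) (a2 := g' a2) (s := f' s)
    ?_ ?_ ?_ ?_ ?_ ?_ ?_ ?_ ?_
  · rw [← map_one g']; exact hg'.mono c1
  · rw [← map_one g']; exact fun e => c2 (hg'.1 e)
  · rw [← map_one g']; exact hg'.mono c3
  · rw [← hg'.2.1, c4, map_one]
  · rw [← hg'.2.1, c5, map_one]
  · rw [c6, map_mul]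
  · rw [← map_one f']; exact hf'.mono b1
  · rw [← hx]; exact hf'.mono b2
  · rw [← hx, ← hx]
    have := hf'.mono b3
    simpa only [map_mul, map_inv] using this

end Hahn

end Pool.Agent.Y56.AB
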