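import Pool.Agent.Y56.AB.Hol

/-! The two extensions of a lattice-ordered group with two conjugate-disjoint elements. -/

namespace Pool.Agent.Y56.AB

open Pool.Agent.Helper539.LG

universe u

section Pi

variable {ι : Type*} {G : ι → Type*} [∀ i, Group (G i)] [∀ i, Lattice (G i)]

instance piLeft [∀ i, MulLeftMono (G i)] : MulLeftMono (∀ i, G i) :=
  ⟨fun f _ _ h i => mul_le_mul_right (h i) (f i)⟩

instance piRight [∀ i, MulRightMono (G i)] : MulRightMono (∀ i, G i) :=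
  ⟨fun f _ _ h i => mul_le_mul_left (h i) (f i)⟩

variable {A : Type*} [Group A] [Lattice A]

theorem pi_isLHom {f : ∀ i, A →* G i} (h : ∀ i, IsLHom (f i)) :
    IsLHom (MonoidHom.pi f : A →* ∀ i, G i) := by
  intro x y
  funext i
  exact h i x y

theorem prod_isLHom {B C : Type*} [Group B] [Lattice B] [Group C] [Lattice C] {f : A →* B}
    {g : A →* C} (hf : IsLHom f) (hg : IsLHom g) : IsLHom (f.prod g) := by
  intro x y
  exact Prod.ext (hf x y) (hg x y)

end Pi

section Reps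

variable {A : Type*} [Group A] [Lattice A] [MulLeftMono A] [MulRightMono A]
variable {Θ Ω : Type*} [LinearOrder Θ] [LinearOrder Ω]

open Classical in
/-- The action used on the first side. -/
noncomputable def sB (β : Θ) (ρb : A →* Aut Θ) (ρ : A →* Aut Ω) : ℝ → A →* Aut (Θ ×ₗ Ω) :=
  fun l => if l = 3 then blkHom β ρ else if l = 0 then topHom ρb else 1

/-- The action used on the first side. -/
noncomputable def repB (β : Θ) (ρb : A →* Aut Θ) (ρ : A →* Aut Ω) :
    A →* Aut (ℝ ×ₗ (Θ ×ₗ Ω)) := fibHom (sB β ρb ρ)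

variable {β : Θ} {ρb : A →* Aut Θ} {ρ : A →* Aut Ω}

omit [MulLeftMono A] [MulRightMono A] in
theorem sB_three : sB β ρb ρ 3 = blkHom β ρ := if_pos rfl

omit [MulLeftMono A] [MulRightMono A] in
theorem sB_zero : sB β ρb ρ 0 = topHom ρb := by
  unfold sB
  rw [if_neg (by norm_num), if_pos rfl]

omit [MulLeftMono A] [MulRightMono A] in
theorem sB_else {l : ℝ} (h3 : l ≠ 3) (h0 : l ≠ 0) : sB β ρb ρ l = 1 := by
  unfold sB
  rw [if_neg h3, if_neg h0]

omit [MulLeftMono A] [MulRightMono A] in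
theorem sB_isLHom (hb : IsLHom ρb) (hρ : IsLHom ρ) (l : ℝ) : IsLHom (sB β ρb ρ l) := by
  by_cases h3 : l = 3
  · subst h3; rw [sB_three]; exact blkHom_isLHom hρ
  · by_cases h0 : l = 0
    · subst h0; rw [sB_zero]; exact topHom_isLHom hb
    · rw [sB_else h3 h0]; exact isLHom_one

omit [MulLeftMono A] [MulRightMono A] in
theorem repB_isLHom (hb : IsLHom ρb) (hρ : IsLHom ρ) : IsLHom (repB β ρb ρ) :=
  fibHom_isLHom (sB_isLHom hb hρ)

omit [MulLeftMono A] [MulRightMono A] in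
theorem repB_eq_one {x : A} (h : repB β ρb ρ x = 1) : ρ x = 1 := by
  have h0 : fib (fun l => sB β ρb ρ l x) = 1 := h
  have h1 := fib_eq_one h0 3
  rw [sB_three, blkHom_apply] at h1
  exact blk_eq_one h1

omit [MulLeftMono A] [MulRightMono A] in
theorem repB_w {b : A} (hb1 : 1 ≤ b) (hb : IsLHom ρb) (hρ : IsLHom ρ) (h : ρ b = 1) :
    top w2 ⊓ repB β ρb ρ b = 1 := by
  rw [repB, fibHom_apply]
  apply top_inf_fib one_le_w2 (fun l => (sB_isLHom hb hρ l).one_le hb1)
  intro l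
  by_cases h3 : l = 3
  · right; subst h3; rw [sB_three, blkHom_apply, h, blk_one]
  · by_cases h0 : l = 0
    · left; subst h0; rw [w2_apply, if_pos (by norm_num)]
    · right; rw [sB_else h3 h0]; rfl

omit [MulLeftMono A] [MulRightMono A] in
theorem repB_w' {a : A} (ha1 : 1 ≤ a) (hb : IsLHom ρb) (hρ : IsLHom ρ) (h : ρb a = 1) :
    top w1 ⊓ repB β ρb ρ a = 1 := by
  rw [repB, fibHom_apply]
  apply top_inf_fib one_le_w1 (fun l => (sB_isLHom hb hρ l).one_le ha1)
  intro l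
  by_cases h3 : l = 3
  · left; subst h3; rw [w1_apply, if_neg (by norm_num), if_pos (by norm_num)]; norm_num
  · right
    by_cases h0 : l = 0
    · subst h0; rw [sB_zero, topHom_apply, h, top_one]
    · rw [sB_else h3 h0]; rfl

omit [MulLeftMono A] [MulRightMono A] in
theorem repB_conj {a b : A} (hb1 : 1 ≤ b) (hb : IsLHom ρb) (hρ : IsLHom ρ)
    (h : ρb a = 1) (hβ : β < ρb b β) :
    (top w2 * top w1)⁻¹ * repB β ρb ρ a * (top w2 * top w1) ≤ repB β ρb ρ b := by
  rw [repB, fibHom_apply, fibHom_apply, ← top_mul, top_conj]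
  apply fib_le
  intro l
  show sB β ρb ρ ((w2 * w1) l) a ≤ sB β ρb ρ l b
  have hpos := (sB_isLHom (β := β) hb hρ l).one_le hb1
  by_cases h3 : (w2 * w1) l = 3
  · have h0 : (w2 * w1) 0 = 3 := by
      rw [Aut.mul_apply, w1_apply, w2_apply]; norm_num
    have hl : l = 0 := by
      have : (w2 * w1)⁻¹ ((w2 * w1) l) = (w2 * w1)⁻¹ ((w2 * w1) 0) := by rw [h3, h0]
      rwa [Aut.inv_apply, Aut.inv_apply] at this
    rw [h3, hl, sB_three, sB_zero, blkHom_apply, topHom_apply]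
    exact blk_le_top (hb.one_le hb1) hβ
  · refine le_trans (le_of_eq ?_) hpos
    by_cases h0 : (w2 * w1) l = 0
    · rw [h0, sB_zero, topHom_apply, h, top_one]
    · rw [sB_else h3 h0]; rfl

/-- The shift of the integers. -/
def z1 : Aut ℤ := mkAut (fun n => n + 1) (fun n => n - 1) (fun n => by ring) (fun n => by ring)
  (fun _ _ h => by dsimp only; linarith)

theorem z1_inv (n : ℤ) : z1⁻¹ n = n - 1 := rfl

theorem one_le_z1 : 1 ≤ z1 := fun n => by
  show n ≤ n + 1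
  linarith

/-- The action used on the second side. -/
noncomputable def sC (α : Θ) (ρa : A →* Aut Θ) (ρ : A →* Aut Ω) : ℤ → A →* Aut (Θ ×ₗ Ω) :=
  fun n => if Even n then topHom ρa else blkHom α ρ

/-- The action used on the second side. -/
noncomputable def repC (α : Θ) (ρa : A →* Aut Θ) (ρ : A →* Aut Ω) :
    A →* Aut (ℤ ×ₗ (Θ ×ₗ Ω)) := fibHom (sC α ρa ρ)

variable {α : Θ} {ρa : A →* Aut Θ}

omit [MulLeftMono A] [MulRightMono A] in
theorem sC_isLHom (ha : IsLHom ρa) (hρ : IsLHom ρ) (n : ℤ) : IsLHom (sC α ρa ρ n) := by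
  unfold sC
  split_ifs
  · exact topHom_isLHom ha
  · exact blkHom_isLHom hρ

omit [MulLeftMono A] [MulRightMono A] in
theorem repC_isLHom (ha : IsLHom ρa) (hρ : IsLHom ρ) : IsLHom (repC α ρa ρ) :=
  fibHom_isLHom (sC_isLHom ha hρ)

omit [MulLeftMono A] [MulRightMono A] in
theorem repC_eq_one {x : A} (h : repC α ρa ρ x = 1) : ρ x = 1 := by
  have h0 : fib (fun l => sC α ρa ρ l x) = 1 := h
  have h1 := fib_eq_one h0 1
  have e : sC α ρa ρ 1 = blkHom α ρ := if_neg (by decide)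
  rw [e, blkHom_apply] at h1
  exact blk_eq_one h1

omit [MulLeftMono A] [MulRightMono A] in
theorem repC_conj1 {a b : A} (ha1 : 1 ≤ a) (ha : IsLHom ρa) (hρ : IsLHom ρ)
    (h : ρa b = 1) (hα : α < ρa a α) :
    top z1 * repC α ρa ρ b * (top z1)⁻¹ ≤ repC α ρa ρ a := by
  rw [repC, fibHom_apply, fibHom_apply, top_conj']
  apply fib_le
  intro n
  have hpos := (sC_isLHom (α := α) ha hρ n).one_le ha1
  show sC α ρa ρ (n - 1) b ≤ sC α ρa ρ n a
  by_cases hn : Even n
  · have hn' : ¬ Even (n - 1) := by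
      rw [Int.even_sub_one]; exact fun h' => h' hn
    unfold sC
    rw [if_neg hn', if_pos hn, blkHom_apply, topHom_apply]
    exact blk_le_top (ha.one_le ha1) hα
  · refine le_trans (le_of_eq ?_) hpos
    have hn' : Even (n - 1) := by
      rw [Int.even_sub_one]; exact hn
    unfold sC
    rw [if_pos hn', topHom_apply, h, top_one]

omit [MulLeftMono A] [MulRightMono A] in
theorem repC_conj2 (b : A) :
    top z1 * top z1 * repC α ρa ρ b * (top z1 * top z1)⁻¹ = repC α ρa ρ b := by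
  rw [repC, fibHom_apply, ← top_mul, top_conj']
  congr 1
  funext n
  have e : (z1 * z1)⁻¹ n = n - 1 - 1 := by
    rw [mul_inv_rev, Aut.mul_apply, z1_inv, z1_inv]
  rw [e]
  unfold sC
  have : Even (n - 1 - 1) ↔ Even n := by
    rw [Int.even_sub_one, Int.even_sub_one, not_not]
  by_cases hn : Even n
  · rw [if_pos hn, if_pos (this.mpr hn)]
  · rw [if_neg hn, if_neg (fun h => hn (this.mp h))]

end Reps

section Sides

variable {A : Type u} [Group A] [Lattice A] [MulLeftMono A] [MulRightMono A]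

/-- The chains of Holland's theorem. -/
def Om (x : {x : A // 1 < x}) : Type u := (holland x.1 x.2).choose

noncomputable instance (x : {x : A // 1 < x}) : LinearOrder (Om x) :=
  (holland x.1 x.2).choose_spec.choose

/-- The representations of Holland's theorem. -/
noncomputable def rp (x : {x : A // 1 < x}) : A →* Aut (Om x) :=
  (holland x.1 x.2).choose_spec.choose_spec.choose

theorem rp_spec (x : {x : A // 1 < x}) : IsLHom (rp x) ∧
    (∀ p q, ∃ g, rp x g p = q) ∧ ∃ p, p < rp x x.1 p :=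
  (holland x.1 x.2).choose_spec.choose_spec.choose_spec

theorem rp_ne (x : {x : A // 1 < x}) : rp x x.1 ≠ 1 := by
  obtain ⟨p, hp⟩ := (rp_spec x).2.2
  intro h
  rw [h] at hp
  exact lt_irrefl _ hp

variable {a b : A} (ha : 1 < a) (hb : 1 < b) (h : ∀ g, a ⊓ (g⁻¹ * b * g) = 1)

include ha hb h in
theorem rp_or (x : {x : A // 1 < x}) : rp x a = 1 ∨ rp x b = 1 :=
  trivial_or (rp_spec x).1 (rp_spec x).2.1 ha.le hb.le h

include ha hb h in
theorem side_B : ∃ (B : Type u) (_ : Group B) (_ : Lattice B) (_ : MulLeftMono B)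
    (_ : MulRightMono B) (f : A →* B) (w w' : B), IsLEmb f ∧ 1 ≤ w ∧ 1 ≤ w' ∧
      w ⊓ f b = 1 ∧ w' ⊓ f a = 1 ∧ (w * w')⁻¹ * f a * (w * w') ≤ f b := by
  obtain ⟨β, hβ⟩ := (rp_spec ⟨b, hb⟩).2.2
  have hρ := fun x : {x : A // 1 < x} => (rp_spec x).1
  have hab : rp ⟨b, hb⟩ a = 1 := (rp_or ha hb h ⟨b, hb⟩).resolve_right (rp_ne ⟨b, hb⟩)
  let I := {x : {x : A // 1 < x} // rp x b = 1}
  let J := {x : {x : A // 1 < x} // rp x a = 1}
  let f1 : A →* ∀ x : I, Aut (ℝ ×ₗ (Om (⟨b, hb⟩ : {x : A // 1 < x}) ×ₗ Om x.1)) :=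
    MonoidHom.pi (fun x => repB β (rp ⟨b, hb⟩) (rp x.1))
  let f2 : A →* ∀ x : J, Aut (Om x.1) := MonoidHom.pi (fun x => rp x.1)
  have hf : IsLHom (f1.prod f2) := prod_isLHom
    (pi_isLHom (fun x => repB_isLHom (hρ _) (hρ _))) (pi_isLHom (fun x => hρ _))
  refine ⟨(∀ x : I, Aut (ℝ ×ₗ (Om (⟨b, hb⟩ : {x : A // 1 < x}) ×ₗ Om x.1))) ×
    (∀ x : J, Aut (Om x.1)), inferInstance, inferInstance, inferInstance, inferInstance,
    f1.prod f2, (fun _ => top w2, 1), (fun _ => top w1, 1), ?_, ?_, ?_, ?_, ?_, ?_⟩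
  · apply hf.emb
    intro x hx h1
    rcases rp_or ha hb h ⟨x, hx⟩ with h2 | h2
    · have h3 : f2 x ⟨⟨x, hx⟩, h2⟩ = 1 := by
        have := congrArg Prod.snd h1
        exact congrFun this _
      exact rp_ne ⟨x, hx⟩ h3
    · have h3 : f1 x ⟨⟨x, hx⟩, h2⟩ = 1 := by
        have := congrArg Prod.fst h1
        exact congrFun this _
      exact rp_ne ⟨x, hx⟩ (repB_eq_one h3)
  · exact ⟨fun _ => one_le_top one_le_w2, le_refl _⟩
  · exact ⟨fun _ => one_le_top one_le_w1, le_refl _⟩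
  · apply Prod.ext
    · funext x
      exact repB_w hb.le (hρ _) (hρ _) x.2
    · funext x
      exact inf_eq_left.mpr ((hρ x.1).one_le hb.le)
  · apply Prod.ext
    · funext x
      exact repB_w' ha.le (hρ _) (hρ _) hab
    · funext x
      exact inf_eq_left.mpr ((hρ x.1).one_le ha.le)
  · constructor
    · intro x
      have h5 : (top w2 * top w1)⁻¹ * repB β (rp ⟨b, hb⟩) (rp x.1) a * (top w2 * top w1) ≤
        repB β (rp ⟨b, hb⟩) (rp x.1) b := repB_conj hb.le (hρ _) (hρ _) hab hβ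
      exact h5
    · intro x
      have h6 : ((1 : Aut (Om x.1)) * 1)⁻¹ * rp x.1 a * (1 * 1) ≤ rp x.1 b := by
        rw [x.2, mul_one, inv_mul_cancel]
        exact (hρ x.1).one_le hb.le
      exact h6

include ha hb h in
theorem side_C : ∃ (C : Type u) (_ : Group C) (_ : Lattice C) (_ : MulLeftMono C)
    (_ : MulRightMono C) (g : A →* C) (c t : C), IsLEmb g ∧ 1 ≤ c ∧ c ≠ 1 ∧ c ≤ g a ∧ 1 ≤ t ∧
      t ⊓ c = 1 ∧ t * g b * t⁻¹ ≤ g a ∧ t * t * g b * (t * t)⁻¹ ≤ g b := by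
  obtain ⟨α, hα⟩ := (rp_spec ⟨a, ha⟩).2.2
  have hρ := fun x : {x : A // 1 < x} => (rp_spec x).1
  have hab : rp ⟨a, ha⟩ b = 1 := (rp_or ha hb h ⟨a, ha⟩).resolve_left (rp_ne ⟨a, ha⟩)
  let I := {x : {x : A // 1 < x} // rp x b = 1}
  let J := {x : {x : A // 1 < x} // rp x a = 1}
  let f1 : A →* ∀ x : I, Aut (Om x.1) := MonoidHom.pi (fun x => rp x.1)
  let f2 : A →* ∀ x : J, Aut (ℤ ×ₗ (Om (⟨a, ha⟩ : {x : A // 1 < x}) ×ₗ Om x.1)) :=
    MonoidHom.pi (fun x => repC α (rp ⟨a, ha⟩) (rp x.1))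
  have hf : IsLHom (f1.prod f2) := prod_isLHom
    (pi_isLHom (fun x => hρ _)) (pi_isLHom (fun x => repC_isLHom (hρ _) (hρ _)))
  refine ⟨(∀ x : I, Aut (Om x.1)) ×
    (∀ x : J, Aut (ℤ ×ₗ (Om (⟨a, ha⟩ : {x : A // 1 < x}) ×ₗ Om x.1))),
    inferInstance, inferInstance, inferInstance, inferInstance,
    f1.prod f2, (f1 a, 1), (1, fun _ => top z1), ?_, ?_, ?_, ?_, ?_, ?_, ?_, ?_⟩
  · apply hf.emb
    intro x hx h1
    rcases rp_or ha hb h ⟨x, hx⟩ with h2 | h2
    · have h3 : f2 x ⟨⟨x, hx⟩, h2⟩ = 1 := by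
        have := congrArg Prod.snd h1
        exact congrFun this _
      exact rp_ne ⟨x, hx⟩ (repC_eq_one h3)
    · have h3 : f1 x ⟨⟨x, hx⟩, h2⟩ = 1 := by
        have := congrArg Prod.fst h1
        exact congrFun this _
      exact rp_ne ⟨x, hx⟩ h3
  · exact ⟨fun x => (hρ x.1).one_le ha.le, le_refl _⟩
  · intro h1
    have h2 := congrArg Prod.fst h1
    have h3 : f1 a ⟨⟨a, ha⟩, hab⟩ = 1 := congrFun h2 _
    exact rp_ne ⟨a, ha⟩ h3
  · refine ⟨le_refl _, fun x => ?_⟩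
    exact (repC_isLHom (hρ _) (hρ _)).one_le ha.le
  · exact ⟨le_refl _, fun _ => one_le_top one_le_z1⟩
  · apply Prod.ext
    · funext x
      exact inf_eq_left.mpr ((hρ x.1).one_le ha.le)
    · funext x
      exact inf_eq_right.mpr (one_le_top one_le_z1)
  · constructor
    · intro x
      have h6 : (1 : Aut (Om x.1)) * rp x.1 b * 1⁻¹ ≤ rp x.1 a := by
        rw [x.2, mul_one, inv_one, one_mul]
        exact (hρ x.1).one_le ha.le
      exact h6
    · intro x
      have h5 : top z1 * repC α (rp ⟨a, ha⟩) (rp x.1) b * (top z1)⁻¹ ≤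
        repC α (rp ⟨a, ha⟩) (rp x.1) a := repC_conj1 ha.le (hρ _) (hρ _) hab hα
      exact h5
  · constructor
    · intro x
      have h6 : (1 : Aut (Om x.1)) * 1 * rp x.1 b * (1 * 1)⁻¹ ≤ rp x.1 b := by
        rw [one_mul, one_mul, inv_one, mul_one]
      exact h6
    · intro x
      have h5 : top z1 * top z1 * repC α (rp ⟨a, ha⟩) (rp x.1) b * (top z1 * top z1)⁻¹ ≤
        repC α (rp ⟨a, ha⟩) (rp x.1) b := le_of_eq (repC_conj2 b)
      exact h5

end Sides

universe v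

/-- No amalgam over a group with two conjugate-disjoint elements. -/
theorem no_base {A : Type u} [Group A] [Lattice A] [MulLeftMono A] [MulRightMono A] {a b : A}
    (ha : 1 < a) (hb : 1 < b) (h : ∀ g, a ⊓ (g⁻¹ * b * g) = 1) :
    ∃ (B : Type u) (_ : Group B) (_ : Lattice B) (_ : MulLeftMono B) (_ : MulRightMono B)
      (C : Type u) (_ : Group C) (_ : Lattice C) (_ : MulLeftMono C) (_ : MulRightMono C)
      (f : A →* B) (g : A →* C),
      IsLEmb f ∧ IsLEmb g ∧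
      ∀ (D : Type v) [Group D] [Lattice D] [MulLeftMono D] [MulRightMono D]
        (f' : B →* D) (g' : C →* D), IsLEmb f' → IsLEmb g' → f'.comp f ≠ g'.comp g := by
  obtain ⟨B, i1, i2, i3, i4, f, w, w', hf, b1, b2, b3, b4, b5⟩ := side_B ha hb h
  obtain ⟨C, j1, j2, j3, j4, g, c, t, hg, c1, c2, c3, c4, c5, c6, c7⟩ := side_C ha hb h
  refine ⟨B, i1, i2, i3, i4, C, j1, j2, j3, j4, f, g, hf, hg, ?_⟩
  intro D _ _ _ _ f' g' hf' hg' e
  have hx : ∀ x, f' (f x) = g' (g x) := fun x => congrArg (fun φ => φ x) e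
  have hab : a ⊓ b = 1 := by
    have := h 1
    simpa using this
  refine no_amalgam (a := g' (g a)) (b := g' (g b)) (c := g' c) (t := g' t)
    (w := f' w) (w' := f' w') ?_ ?_ (hg'.mono c3) ?_ ?_ ?_ ?_ ?_ ?_ ?_ ?_ ?_ ?_
  · rw [← map_one g']; exact hg'.mono c1
  · rw [← map_one g']; exact fun e => c2 (hg'.1 e)
  · rw [← map_one g']; exact hg'.mono c4
  · rw [← hg'.2.1, c5, map_one]
  · rw [← map_inv, ← map_mul, ← map_mul]; exact hg'.mono c6
  · rw [← map_mul, ← map_inv, ← map_mul, ← map_mul]; exact hg'.mono c7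
  · rw [← map_one f']; exact hf'.mono b1
  · rw [← map_one f']; exact hf'.mono b2
  · rw [← hx, ← hf'.2.1, b3, map_one]
  · rw [← hx, ← hf'.2.1, b4, map_one]
  · rw [← hg'.2.1, ← hg.2.1, hab, map_one, map_one]
  · rw [← hx, ← hx, ← map_mul, ← map_inv, ← map_mul, ← map_mul]; exact hf'.mono b5

end Pool.Agent.Y56.AB
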