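import Pool.Agent.Helper539.LGLex

/-! Blocks of a positive element in a totally ordered abelian group, and an automorphism of the
chain of positive elements of an ordered field which expands short intervals. -/

namespace Pool.Agent.Y56.AB

open Pool.Agent.Helper539.LG

section Blocks

variable {P : Type*} [CommGroup P] [LinearOrder P] [IsOrderedMonoid P]

theorem mulL_le {x y : P} (h : x ≤ y) (c : P) : c * x ≤ c * y := mul_le_mul_right h c

theorem mulL_lt {x y : P} (h : x < y) (c : P) : c * x < c * y := mul_lt_mul_right h c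

theorem exists_blocks {α : P} (hα : 1 < α) : ∃ F : P → P, (∀ x, F x ≤ x) ∧
    (∀ x, x < α * F x) ∧ (∀ x y, F x ≤ y → y < α * F x → F y = F x) ∧
    (∀ x, F (α * x) = α * F x) := by
  classical
  have hpow : ∀ n : ℕ, 1 ≤ α ^ n := fun n => one_le_pow_of_one_le' hα.le n
  let S : Setoid P :=
    { r := fun x y => ∃ n : ℕ, x ≤ α ^ n * y ∧ y ≤ α ^ n * x
      iseqv := ⟨fun x => ⟨0, by simp, by simp⟩, fun ⟨n, h1, h2⟩ => ⟨n, h2, h1⟩,
        fun {x y z} ⟨n, h1, h2⟩ ⟨m, h3, h4⟩ => ⟨n + m, by
          rw [pow_add, mul_assoc]; exact h1.trans (mulL_le h3 _), by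
          rw [pow_add, mul_comm (α ^ n), mul_assoc]; exact h4.trans (mulL_le h2 _)⟩⟩ }
  let r : P → P := fun x => (Quotient.mk S x).out
  have hr : ∀ x, ∃ n : ℕ, r x ≤ α ^ n * x ∧ x ≤ α ^ n * r x := fun x => Quotient.mk_out (s := S) x
  have hreq : ∀ x y, (∃ n : ℕ, x ≤ α ^ n * y ∧ y ≤ α ^ n * x) → r x = r y := by
    intro x y h
    have : Quotient.mk S x = Quotient.mk S y := Quotient.sound h
    exact congrArg Quotient.out this
  have hmono : StrictMono (fun n : ℤ => α ^ n) := zpow_right_strictMono hα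
  have hex : ∀ x, ∃ n : ℤ, α ^ n * r x ≤ x ∧ x < α ^ (n + 1) * r x := by
    intro x
    obtain ⟨m, h1, h2⟩ := hr x
    obtain ⟨n, hn, hmax⟩ := Int.exists_greatest_of_bdd (P := fun n : ℤ => α ^ n * r x ≤ x)
      ⟨m, fun z hz => by
        have h3 : α ^ z * r x ≤ α ^ (m : ℤ) * r x := by
          rw [zpow_natCast]; exact hz.trans h2
        have h4 : α ^ z ≤ α ^ (m : ℤ) := le_of_mul_le_mul_right' h3
        exact hmono.le_iff_le.mp h4⟩
      ⟨-m, by
        rw [zpow_neg, zpow_natCast, inv_mul_le_iff_le_mul]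
        exact h1⟩
    refine ⟨n, hn, ?_⟩
    by_contra hcon
    push Not at hcon
    have := hmax _ hcon
    omega
  have huniq : ∀ (r x : P) (n m : ℤ), α ^ n * r ≤ x → x < α ^ (n + 1) * r → α ^ m * r ≤ x →
      x < α ^ (m + 1) * r → n = m := by
    intro r x n m h1 h2 h3 h4
    have h5 : n < m + 1 := by
      have : α ^ n < α ^ (m + 1) := lt_of_mul_lt_mul_right' (h1.trans_lt h4)
      exact hmono.lt_iff_lt.mp this
    have h6 : m < n + 1 := by
      have : α ^ m < α ^ (n + 1) := lt_of_mul_lt_mul_right' (h3.trans_lt h2)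
      exact hmono.lt_iff_lt.mp this
    omega
  choose n hn1 hn2 using hex
  have hsucc : ∀ x, α * (α ^ n x * r x) = α ^ (n x + 1) * r x := by
    intro x
    rw [zpow_add_one, mul_comm (α ^ n x) α, mul_assoc]
  refine ⟨fun x => α ^ n x * r x, hn1, ?_, ?_, ?_⟩
  · intro x
    show x < α * (α ^ n x * r x)
    rw [hsucc]; exact hn2 x
  · intro x y h1 h2
    dsimp only at h1 h2 ⊢
    rw [hsucc] at h2
    have e : r y = r x := by
      apply hreq
      refine ⟨1, ?_, ?_⟩
      · rw [pow_one]
        refine h2.le.trans ?_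
        rw [← hsucc]
        exact mulL_le (hn1 x) _
      · rw [pow_one]
        refine (hn2 x).le.trans ?_
        rw [← hsucc]
        exact mulL_le h1 _
    have e2 : n y = n x := huniq (r x) y _ _ (by rw [← e]; exact hn1 y)
      (by rw [← e]; exact hn2 y) h1 h2
    rw [e, e2]
  · intro x
    have e : r (α * x) = r x := by
      apply hreq
      refine ⟨1, ?_, ?_⟩
      · rw [pow_one]
      · rw [pow_one, ← mul_assoc]
        exact le_mul_of_one_le_left' (one_le_mul hα.le hα.le)
    have e2 : n (α * x) = n x + 1 := by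
      apply huniq (r x) (α * x)
      · rw [← e]; exact hn1 _
      · rw [← e]; exact hn2 _
      · rw [← hsucc]; exact mulL_le (hn1 x) _
      · rw [zpow_add_one, mul_comm _ α, mul_assoc]
        exact mulL_lt (hn2 x) _
    show α ^ n (α * x) * r (α * x) = α * (α ^ n x * r x)
    rw [e, e2, hsucc]

end Blocks

section Field

variable {K : Type*} [Field K] [LinearOrder K] [IsStrictOrderedRing K]

/-- The fractional linear coordinate. -/
noncomputable def tt (α u : K) : K := (u - 1) / (α - u)

/-- The inverse coordinate. -/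
noncomputable def uu (α t : K) : K := (1 + α * t) / (1 + t)

theorem tt_nonneg {α u : K} (h1 : 1 ≤ u) (h2 : u < α) : 0 ≤ tt α u :=
  div_nonneg (by linarith) (by linarith)

theorem uu_tt {α u : K} (hα : 1 < α) (h2 : u < α) : uu α (tt α u) = u := by
  unfold uu tt
  have h3 : α - u ≠ 0 := by
    have : 0 < α - u := by linarith
    exact this.ne'
  have h4 : α - 1 ≠ 0 := by
    have : 0 < α - 1 := by linarith
    exact this.ne'
  have e1 : 1 + α * ((u - 1) / (α - u)) = u * (α - 1) / (α - u) := by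
    field_simp; ring
  have e2 : 1 + (u - 1) / (α - u) = (α - 1) / (α - u) := by
    field_simp; ring
  rw [e1, e2]
  field_simp

theorem uu_lt {α t : K} (hα : 1 < α) (ht : 0 ≤ t) : uu α t < α := by
  unfold uu
  rw [div_lt_iff₀ (by linarith)]
  nlinarith

theorem one_le_uu {α t : K} (hα : 1 < α) (ht : 0 ≤ t) : 1 ≤ uu α t := by
  unfold uu
  rw [le_div_iff₀ (by linarith)]
  nlinarith

theorem tt_uu {α t : K} (hα : 1 < α) (ht : 0 ≤ t) : tt α (uu α t) = t := by
  unfold uu tt
  have h3 : 1 + t ≠ 0 := by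
    have : 0 < 1 + t := by linarith
    exact this.ne'
  have h4 : α - 1 ≠ 0 := by
    have : 0 < α - 1 := by linarith
    exact this.ne'
  have e1 : (1 + α * t) / (1 + t) - 1 = t * (α - 1) / (1 + t) := by
    field_simp; ring
  have e2 : α - (1 + α * t) / (1 + t) = (α - 1) / (1 + t) := by
    field_simp; ring
  rw [e1, e2]
  field_simp

theorem uu_lt_uu {α t t' : K} (hα : 1 < α) (ht : 0 ≤ t) (h : t < t') : uu α t < uu α t' := by
  unfold uu
  rw [div_lt_div_iff₀ (by linarith) (by linarith)]
  nlinarith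

theorem uu_le_uu {α t t' : K} (hα : 1 < α) (ht : 0 ≤ t) (h : t ≤ t') : uu α t ≤ uu α t' := by
  rcases h.lt_or_eq with h | h
  · exact (uu_lt_uu hα ht h).le
  · rw [h]

theorem tt_lt_tt {α u v : K} (hα : 1 < α) (h : u < v) (hv : v < α) : tt α u < tt α v := by
  unfold tt
  rw [div_lt_div_iff₀ (by linarith) (by linarith)]
  nlinarith

end Field

end Pool.Agent.Y56.AB
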