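import Pool.Agent.Y56.AB.Obs

/-! Transitive representations of lattice-ordered groups on chains (Holland). -/

namespace Pool.Agent.Y56.AB

open Pool.Agent.Helper539.LG

universe u

section

variable {A : Type u} [Group A] [Lattice A] [MulLeftMono A] [MulRightMono A]

/-- The quotient by a setoid. -/
def Pt {X : Type u} (S : Setoid X) : Type u := Quotient S

/-- A left invariant form of `exists_preorder`. -/
theorem exists_left {c : A} (hc : 1 ≤ c) (hc1 : c ≠ 1) :
    ∃ L : A → A → Prop, (∀ x y, x ≤ y → L x y) ∧ (∀ x y z, L x y → L y z → L x z) ∧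
      (∀ x y, L x y ∨ L y x) ∧ (∀ x y z, L x y → L (z * x) (z * y)) ∧
      (∀ g h, g ⊓ h = 1 → ∀ k, L (g * k) k ∨ L (h * k) k) ∧ ¬ L c 1 := by
  obtain ⟨R, hle, htr, hto, hr, hp, hRc⟩ := exists_preorder hc hc1
  refine ⟨fun x y => R y⁻¹ x⁻¹, ?_, ?_, ?_, ?_, ?_, ?_⟩
  · intro x y h
    exact hle _ _ (inv_le_inv_iff.mpr h)
  · intro x y z h1 h2
    exact htr _ _ _ h2 h1
  · intro x y
    exact hto _ _
  · intro x y z h
    have := hr _ _ z⁻¹ h
    rwa [← mul_inv_rev, ← mul_inv_rev] at this
  · intro g h hgh k
    have key : ∀ g : A, R (k⁻¹ * g) k⁻¹ → R k⁻¹ (g * k)⁻¹ := by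
      intro g h
      have := hr _ _ g⁻¹ h
      rwa [mul_inv_cancel_right, ← mul_inv_rev] at this
    rcases hp g h hgh k⁻¹ with h1 | h1
    · exact Or.inl (key g h1)
    · exact Or.inr (key h h1)
  · intro h
    apply hRc
    have := hr _ _ c h
    rwa [inv_one, one_mul, inv_mul_cancel] at this

/-- Holland's representation at one element. -/
theorem holland (c : A) (hc : 1 < c) :
    ∃ (Ω : Type u) (_ : LinearOrder Ω) (ρ : A →* Aut Ω), IsLHom ρ ∧
      (∀ p q, ∃ g, ρ g p = q) ∧ ∃ p, p < ρ c p := by
  classical
  obtain ⟨L, hle, htr, hto, hl, hp, hLc⟩ := exists_left hc.le hc.ne'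
  have hrefl : ∀ x, L x x := fun x => hle _ _ le_rfl
  let S : Setoid A :=
    { r := fun x y => L x y ∧ L y x
      iseqv := ⟨fun x => ⟨hrefl x, hrefl x⟩, fun h => ⟨h.2, h.1⟩,
        fun h1 h2 => ⟨htr _ _ _ h1.1 h2.1, htr _ _ _ h2.2 h1.2⟩⟩ }
  let Ω : Type u := Pt S
  let le' : Ω → Ω → Prop := Quotient.lift₂ (s₁ := S) (s₂ := S) L (by
    intro a1 b1 a2 b2 h1 h2
    apply propext
    constructor
    · intro h
      exact htr _ _ _ h1.2 (htr _ _ _ h h2.1)
    · intro h
      exact htr _ _ _ h1.1 (htr _ _ _ h h2.2))
  let O : LinearOrder Ω :=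
    { le := le'
      lt := fun x y => le' x y ∧ ¬ le' y x
      lt_iff_le_not_ge := fun _ _ => Iff.rfl
      le_refl := by
        intro x
        induction x using Quotient.inductionOn with | _ x => exact hrefl x
      le_trans := by
        intro x y z
        induction x using Quotient.inductionOn with | _ x => ?_
        induction y using Quotient.inductionOn with | _ y => ?_
        induction z using Quotient.inductionOn with | _ z => ?_
        exact htr x y z
      le_antisymm := by
        intro x y
        induction x using Quotient.inductionOn with | _ x => ?_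
        induction y using Quotient.inductionOn with | _ y => ?_
        intro h1 h2
        exact Quotient.sound ⟨h1, h2⟩
      le_total := by
        intro x y
        induction x using Quotient.inductionOn with | _ x => ?_
        induction y using Quotient.inductionOn with | _ y => ?_
        exact hto x y
      toDecidableLE := Classical.decRel _ }
  let act : A → Ω → Ω := fun g => Quotient.map (sa := S) (sb := S) (fun x => g * x)
    (fun x y h => ⟨hl _ _ g h.1, hl _ _ g h.2⟩)
  have act_mul : ∀ g h p, act (g * h) p = act g (act h p) := by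
    intro g h p
    induction p using Quotient.inductionOn with | _ x => ?_
    show Quotient.mk S (g * h * x) = Quotient.mk S (g * (h * x))
    rw [mul_assoc]
  have act_one : ∀ p, act 1 p = p := by
    intro p
    induction p using Quotient.inductionOn with | _ x => ?_
    show Quotient.mk S (1 * x) = Quotient.mk S x
    rw [one_mul]
  have act_le : ∀ g (p q : Ω), p ≤ q → act g p ≤ act g q := by
    intro g p q
    induction p using Quotient.inductionOn with | _ x => ?_
    induction q using Quotient.inductionOn with | _ y => ?_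
    intro h
    exact hl x y g h
  let e : A → Aut Ω := fun g =>
    ({ toFun := act g
       invFun := act g⁻¹
       left_inv := fun p => by rw [← act_mul, inv_mul_cancel, act_one]
       right_inv := fun p => by rw [← act_mul, mul_inv_cancel, act_one]
       map_rel_iff' := by
        intro p q
        constructor
        · intro h
          have := act_le g⁻¹ _ _ h
          simp only [Equiv.coe_fn_mk] at this
          rwa [← act_mul, ← act_mul, inv_mul_cancel, act_one, act_one] at this
        · exact act_le g p q } : Ω ≃o Ω)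
  have e_apply : ∀ g p, e g p = act g p := fun g p => rfl
  let ρ : A →* Aut Ω :=
    { toFun := e
      map_one' := Aut.ext fun p => act_one p
      map_mul' := fun g h => Aut.ext fun p => act_mul g h p }
  refine ⟨Ω, O, ρ, ?_, ?_, ?_⟩
  · intro x y
    apply Aut.ext
    intro p
    rw [Aut.sup_apply]
    have hmono : ∀ g h : A, g ≤ h → act g p ≤ act h p := by
      intro g h hgh
      induction p using Quotient.inductionOn with | _ k => ?_
      exact hle _ _ (mulRR hgh k)
    apply le_antisymm
    · show act (x ⊔ y) p ≤ max (act x p) (act y p)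
      induction p using Quotient.inductionOn with | _ k => ?_
      have h1 := pos_inf_pos (x * y⁻¹)
      have e1 : (x * y⁻¹ ⊔ 1) * y = x ⊔ y := by
        rw [sup_mul, one_mul, inv_mul_cancel_right]
      have e2 : x * y⁻¹ * ((x * y⁻¹)⁻¹ ⊔ 1) = x * y⁻¹ ⊔ 1 := by
        rw [mul_sup, mul_inv_cancel, mul_one, sup_comm]
      rcases hp _ _ h1 (y * k) with h | h
      · refine le_trans ?_ (le_max_right _ _)
        show L ((x ⊔ y) * k) (y * k)
        rwa [← mul_assoc, e1] at h
      · refine le_trans ?_ (le_max_left _ _)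
        show L ((x ⊔ y) * k) (x * k)
        have h2 := hl _ _ (x * y⁻¹) h
        rw [← mul_assoc, e2, ← mul_assoc, e1] at h2
        have e3 : x * y⁻¹ * (y * k) = x * k := by group
        rwa [e3] at h2
    · exact max_le (hmono _ _ le_sup_left) (hmono _ _ le_sup_right)
  · intro p q
    induction p using Quotient.inductionOn with | _ x => ?_
    induction q using Quotient.inductionOn with | _ y => ?_
    refine ⟨y * x⁻¹, ?_⟩
    show Quotient.mk S (y * x⁻¹ * x) = Quotient.mk S y
    rw [inv_mul_cancel_right]
  · refine ⟨Quotient.mk S 1, ?_⟩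
    refine lt_of_not_ge (fun h => ?_)
    apply hLc
    have h2 : L (c * 1) 1 := h
    rwa [mul_one] at h2

/-- In a transitive representation one of two conjugate-disjoint elements acts trivially. -/
theorem trivial_or {Ω : Type*} [LinearOrder Ω] {ρ : A →* Aut Ω} (hρ : IsLHom ρ)
    (htr : ∀ p q, ∃ g, ρ g p = q) {a b : A} (ha : 1 ≤ a) (hb : 1 ≤ b)
    (h : ∀ g, a ⊓ (g⁻¹ * b * g) = 1) : ρ a = 1 ∨ ρ b = 1 := by
  by_contra hcon
  push Not at hcon
  obtain ⟨h1, h2⟩ := hcon
  have ex : ∀ x : A, 1 ≤ x → ρ x ≠ 1 → ∃ p, p < ρ x p := by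
    intro x hx hne
    by_contra hno
    push Not at hno
    apply hne
    apply Aut.ext
    intro p
    exact le_antisymm (hno p) (hρ.one_le hx p)
  obtain ⟨p, hp⟩ := ex a ha h1
  obtain ⟨q, hq⟩ := ex b hb h2
  obtain ⟨g, hg⟩ := htr p q
  have h3 : ρ (a ⊓ (g⁻¹ * b * g)) p = p := by rw [h g, map_one, Aut.one_apply]
  rw [hρ.inf, Aut.inf_apply] at h3
  have h4 : p < ρ (g⁻¹ * b * g) p := by
    rw [map_mul, map_mul, map_inv, Aut.mul_apply, Aut.mul_apply, hg]
    have : (ρ g)⁻¹ q < (ρ g)⁻¹ (ρ b q) := lt_apply _ hq
    rwa [← hg, Aut.inv_apply, hg] at this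
  exact absurd h3 (ne_of_gt (lt_min hp h4))

end

end Pool.Agent.Y56.AB
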