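import Pool.Agent.Helper539.LGMain

/-! A weaker form of the obstruction to amalgamation, and fibrewise automorphisms of
lexicographic products. -/

namespace Pool.Agent.Y56.AB

open Pool.Agent.Helper539.LG

section Obs

variable {D : Type*} [Group D] [Lattice D] [MulLeftMono D] [MulRightMono D]

theorem no_amalgam {a b c t w w' : D} (hc : 1 ≤ c) (hc1 : c ≠ 1) (hca : c ≤ a) (ht : 1 ≤ t)
    (htc : t ⊓ c = 1) (h1 : t * b * t⁻¹ ≤ a) (h2 : t * t * b * (t * t)⁻¹ ≤ b)
    (hw : 1 ≤ w) (hw' : 1 ≤ w') (hwb : w ⊓ b = 1) (hw'a : w' ⊓ a = 1) (hab : a ⊓ b = 1)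
    (h3 : (w * w')⁻¹ * a * (w * w') ≤ b) : False := by
  obtain ⟨R, hle, htr, -, hr, hp, hRc⟩ := exists_preorder hc hc1
  have hRa : ¬ R a 1 := fun h => hRc (htr _ _ _ (hle _ _ hca) h)
  have hRt : R t 1 := by
    rcases hp t c htc 1 with h | h
    · rwa [one_mul] at h
    · rw [one_mul] at h; exact absurd h hRc
  have hmv : ∀ k, ¬ R (a * k) k := by
    intro k h
    have := hr _ _ k⁻¹ h
    rw [mul_inv_cancel, mul_inv_cancel_right] at this
    exact hRa this
  have hww : (1 : D) ≤ w * w' := one_le_mul hw hw'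
  obtain ⟨u, hu⟩ : ∃ u, u = w * w' := ⟨_, rfl⟩
  rw [← hu] at h3 hww
  have hb1 : ¬ R (u * b) u := by
    intro h
    apply hmv u
    have e : u * (u⁻¹ * a * u) ≤ u * b := mulLL h3 u
    have e2 : u * (u⁻¹ * a * u) = a * u := by group
    rw [e2] at e
    exact htr _ _ _ (hle _ _ e) h
  have ha1 : ¬ R (u * t⁻¹ * a) (u * t⁻¹) := by
    intro h
    apply hb1
    have e : u * t⁻¹ * (t * b * t⁻¹) ≤ u * t⁻¹ * a := mulLL h1 _
    have e2 : u * t⁻¹ * (t * b * t⁻¹) = u * b * t⁻¹ := by group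
    rw [e2] at e
    have := hr _ _ t (htr _ _ _ (hle _ _ e) h)
    rwa [inv_mul_cancel_right, inv_mul_cancel_right] at this
  have hb2 : ¬ R (u * t⁻¹ * t⁻¹ * b) (u * t⁻¹ * t⁻¹) := by
    intro h
    apply hb1
    have e : u * t⁻¹ * t⁻¹ * (t * t * b * (t * t)⁻¹) ≤ u * t⁻¹ * t⁻¹ * b := mulLL h2 _
    have e2 : u * t⁻¹ * t⁻¹ * (t * t * b * (t * t)⁻¹) = u * b * t⁻¹ * t⁻¹ := by group
    rw [e2] at e
    have h4 := hr _ _ t (hr _ _ t (htr _ _ _ (hle _ _ e) h))
    rwa [inv_mul_cancel_right, inv_mul_cancel_right, inv_mul_cancel_right,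
      inv_mul_cancel_right] at h4
  have hwfix : R (u * t⁻¹ * t⁻¹ * w) (u * t⁻¹ * t⁻¹) := by
    rcases hp w b hwb (u * t⁻¹ * t⁻¹) with h | h
    · exact h
    · exact absurd h hb2
  have hw'fix : R (u * t⁻¹ * w') (u * t⁻¹) := by
    rcases hp w' a hw'a (u * t⁻¹) with h | h
    · exact h
    · exact absurd h ha1
  have htinv : t⁻¹ ≤ 1 := inv_le_one'.mpr ht
  have hRtt : R (t * t) 1 := by
    have := hr _ _ t hRt
    rw [one_mul] at this
    exact htr _ _ _ this hRt
  have h1u : R 1 (u * t⁻¹ * t⁻¹) := by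
    have e : R (t * t) u := htr _ _ _ hRtt (hle _ _ hww)
    have := hr _ _ (t * t)⁻¹ e
    rw [mul_inv_cancel] at this
    have e2 : u * (t * t)⁻¹ = u * t⁻¹ * t⁻¹ := by group
    rwa [e2] at this
  have hRw : R w (u * t⁻¹) := by
    have e1 := hr _ _ w h1u
    rw [one_mul] at e1
    refine htr _ _ _ e1 (htr _ _ _ hwfix (hle _ _ ?_))
    have := mulLL htinv (u * t⁻¹)
    rwa [mul_one] at this
  have hRu : R u (u * t⁻¹) := by
    have e1 := hr _ _ w' hRw
    rw [← hu] at e1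
    exact htr _ _ _ e1 hw'fix
  have hau : ¬ R (u * a) u := by
    intro h
    apply ha1
    have e1 : u * t⁻¹ * a ≤ u * a := by
      have : u * t⁻¹ ≤ u := by
        have := mulLL htinv u
        rwa [mul_one] at this
      exact mulRR this a
    exact htr _ _ _ (hle _ _ e1) (htr _ _ _ h hRu)
  rcases hp a b hab u with h | h
  · exact hau h
  · exact hb1 h

end Obs

/-! ### Lattice homomorphisms -/

/-- A homomorphism of groups which preserves joins (hence also meets). -/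
def IsLHom {A B : Type*} [Group A] [Lattice A] [Group B] [Lattice B] (f : A →* B) : Prop :=
  ∀ x y, f (x ⊔ y) = f x ⊔ f y

section Hom

variable {A B : Type*} [Group A] [Lattice A] [MulLeftMono A] [MulRightMono A]
  [Group B] [Lattice B] [MulLeftMono B] [MulRightMono B]

theorem IsLHom.inf {f : A →* B} (hf : IsLHom f) (x y : A) : f (x ⊓ y) = f x ⊓ f y := by
  have h : x ⊓ y = (x⁻¹ ⊔ y⁻¹)⁻¹ := by rw [inv_sup, inv_inv, inv_inv]
  rw [h, map_inv, hf, inv_sup, map_inv, map_inv, inv_inv, inv_inv]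

omit [MulLeftMono A] [MulRightMono A] [MulLeftMono B] [MulRightMono B] in
theorem IsLHom.mono {f : A →* B} (hf : IsLHom f) {x y : A} (h : x ≤ y) : f x ≤ f y := by
  rw [← sup_eq_right.mpr h, hf]
  exact le_sup_left

omit [MulLeftMono A] [MulRightMono A] [MulLeftMono B] [MulRightMono B] in
theorem IsLHom.one_le {f : A →* B} (hf : IsLHom f) {x : A} (h : 1 ≤ x) : 1 ≤ f x := by
  rw [← map_one f]; exact hf.mono h

theorem IsLHom.emb {f : A →* B} (hf : IsLHom f) (h : ∀ x : A, 1 < x → f x ≠ 1) : IsLEmb f := by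
  refine ⟨?_, hf.inf, hf⟩
  have key : ∀ x, f x = 1 → x ≤ 1 := by
    intro x hx
    by_contra hx1
    have h1 : (1 : A) < x ⊔ 1 := by
      refine lt_of_le_of_ne le_sup_right ?_
      intro e
      apply hx1
      rw [e]; exact le_sup_left
    apply h _ h1
    rw [hf, hx, map_one, sup_idem]
  rw [injective_iff_map_eq_one]
  intro x hx
  apply le_antisymm (key x hx)
  have h2 := key x⁻¹ (by rw [map_inv, hx, inv_one])
  exact inv_le_one'.mp h2

omit [MulLeftMono A] [MulRightMono A] [MulLeftMono B] [MulRightMono B] in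
theorem isLHom_one : IsLHom (1 : A →* B) := by
  intro x y
  simp

end Hom

/-! ### Fibrewise automorphisms -/

theorem lt_apply {α : Type*} [LinearOrder α] (f : Aut α) {x y : α} (h : x < y) : f x < f y :=
  lt_of_le_of_ne (f.le_apply.mpr h.le) (fun e => h.not_ge (f.le_apply.mp e.ge))

section Fib

variable {Λ Θ : Type*} [LinearOrder Λ] [LinearOrder Θ]

/-- Automorphisms acting in the fibres. -/
def fib (σ : Λ → Aut Θ) : Aut (Λ ×ₗ Θ) := mkAut
  (fun x => toLex ((ofLex x).1, σ (ofLex x).1 (ofLex x).2))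
  (fun x => toLex ((ofLex x).1, (σ (ofLex x).1)⁻¹ (ofLex x).2))
  (by intro x; simp [Aut.inv_apply]) (by intro x; simp [Aut.apply_inv])
  (by
    intro x y h
    rw [Prod.Lex.lt_iff] at h ⊢
    rcases h with h | ⟨h, h'⟩
    · exact Or.inl h
    · refine Or.inr ⟨h, ?_⟩
      show σ (ofLex x).1 (ofLex x).2 < σ (ofLex y).1 (ofLex y).2
      rw [h]; exact lt_apply _ h')

/-- Automorphisms acting on the first coordinate. -/
def top (w : Aut Λ) : Aut (Λ ×ₗ Θ) := mkAut
  (fun x => toLex (w (ofLex x).1, (ofLex x).2))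
  (fun x => toLex (w⁻¹ (ofLex x).1, (ofLex x).2))
  (by intro x; simp [Aut.inv_apply]) (by intro x; simp [Aut.apply_inv])
  (by
    intro x y h
    rw [Prod.Lex.lt_iff] at h ⊢
    rcases h with h | ⟨h, h'⟩
    · exact Or.inl (lt_apply w h)
    · exact Or.inr ⟨congrArg w h, h'⟩)

theorem fib_apply (σ : Λ → Aut Θ) (l : Λ) (p : Θ) :
    fib σ (toLex (l, p)) = toLex (l, σ l p) := rfl

theorem top_apply (w : Aut Λ) (l : Λ) (p : Θ) :
    top w (toLex (l, p)) = (toLex (w l, p) : Λ ×ₗ Θ) := rfl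

theorem ext2 {f g : Aut (Λ ×ₗ Θ)} (h : ∀ l p, f (toLex (l, p)) = g (toLex (l, p))) : f = g :=
  Aut.ext fun x => h (ofLex x).1 (ofLex x).2

theorem le2 {f g : Aut (Λ ×ₗ Θ)} (h : ∀ l p, f (toLex (l, p)) ≤ g (toLex (l, p))) : f ≤ g :=
  fun x => h (ofLex x).1 (ofLex x).2

theorem fib_one : fib (fun _ : Λ => (1 : Aut Θ)) = 1 := ext2 fun _ _ => rfl

theorem fib_mul (σ τ : Λ → Aut Θ) : fib (fun l => σ l * τ l) = fib σ * fib τ :=
  ext2 fun _ _ => rfl

theorem toLex_max (l : Λ) (p q : Θ) :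
    (toLex (l, max p q) : Λ ×ₗ Θ) = max (toLex (l, p)) (toLex (l, q)) := by
  rcases le_total p q with h | h
  · rw [max_eq_right h, max_eq_right]
    rw [Prod.Lex.le_iff]; exact Or.inr ⟨rfl, h⟩
  · rw [max_eq_left h, max_eq_left]
    rw [Prod.Lex.le_iff]; exact Or.inr ⟨rfl, h⟩

theorem toLex_max' (l m : Λ) (p : Θ) :
    (toLex (max l m, p) : Λ ×ₗ Θ) = max (toLex (l, p)) (toLex (m, p)) := by
  rcases le_total l m with h | h
  · rw [max_eq_right h, max_eq_right]
    rw [Prod.Lex.le_iff]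
    rcases h.lt_or_eq with h | h
    · exact Or.inl h
    · exact Or.inr ⟨h, le_refl _⟩
  · rw [max_eq_left h, max_eq_left]
    rw [Prod.Lex.le_iff]
    rcases h.lt_or_eq with h | h
    · exact Or.inl h
    · exact Or.inr ⟨h, le_refl _⟩

theorem fib_sup (σ τ : Λ → Aut Θ) : fib (fun l => σ l ⊔ τ l) = fib σ ⊔ fib τ := by
  apply ext2
  intro l p
  rw [Aut.sup_apply, fib_apply, fib_apply, fib_apply, Aut.sup_apply, toLex_max]

theorem top_one : top (1 : Aut Λ) = (1 : Aut (Λ ×ₗ Θ)) := ext2 fun _ _ => rfl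

theorem top_mul (w v : Aut Λ) : (top (w * v) : Aut (Λ ×ₗ Θ)) = top w * top v :=
  ext2 fun _ _ => rfl

theorem top_sup (w v : Aut Λ) : (top (w ⊔ v) : Aut (Λ ×ₗ Θ)) = top w ⊔ top v := by
  apply ext2
  intro l p
  rw [Aut.sup_apply, top_apply, top_apply, top_apply, Aut.sup_apply, toLex_max']

theorem fib_le {σ τ : Λ → Aut Θ} (h : ∀ l, σ l ≤ τ l) : fib σ ≤ fib τ := by
  apply le2
  intro l p
  rw [fib_apply, fib_apply, Prod.Lex.le_iff]
  exact Or.inr ⟨rfl, h l p⟩

theorem one_le_top {w : Aut Λ} (h : 1 ≤ w) : (1 : Aut (Λ ×ₗ Θ)) ≤ top w := by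
  apply le2
  intro l p
  rw [top_apply, Aut.one_apply, Prod.Lex.le_iff]
  rcases (h l).lt_or_eq with h | h
  · exact Or.inl h
  · exact Or.inr ⟨h, le_refl _⟩

theorem top_conj (u : Aut Λ) (σ : Λ → Aut Θ) :
    (top u)⁻¹ * fib σ * top u = fib (fun l => σ (u l)) := by
  have : fib σ * top u = top u * fib (fun l => σ (u l)) := ext2 fun _ _ => rfl
  rw [mul_assoc, this, inv_mul_cancel_left]

theorem top_conj' (u : Aut Λ) (σ : Λ → Aut Θ) :
    top u * fib σ * (top u)⁻¹ = fib (fun l => σ (u⁻¹ l)) := by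
  have h := top_conj u (fun l => σ (u⁻¹ l))
  have e : (fun l => (fun l => σ (u⁻¹ l)) (u l)) = σ := by
    funext l
    show σ (u⁻¹ (u l)) = σ l
    rw [Aut.inv_apply]
  rw [e] at h
  rw [← h]; group

theorem top_inf_fib {w : Aut Λ} {σ : Λ → Aut Θ} (hw : 1 ≤ w) (hσ : ∀ l, 1 ≤ σ l)
    (h : ∀ l, w l = l ∨ σ l = 1) : top w ⊓ fib σ = 1 := by
  apply le_antisymm
  · apply le2
    intro l p
    rw [Aut.inf_apply, Aut.one_apply, top_apply, fib_apply]
    rcases h l with h | h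
    · exact (min_le_left _ _).trans (by rw [h])
    · exact (min_le_right _ _).trans (by rw [h, Aut.one_apply])
  · refine le_inf (one_le_top hw) ?_
    rw [← fib_one]
    exact fib_le hσ

open Classical in
/-- An automorphism supported in one fibre. -/
noncomputable def blk (l : Λ) (s : Aut Θ) : Aut (Λ ×ₗ Θ) := fib (fun m => if m = l then s else 1)

theorem blk_le_top {l : Λ} {s : Aut Θ} {r : Aut Λ} (hr : 1 ≤ r) (h : l < r l) :
    blk l s ≤ (top r : Aut (Λ ×ₗ Θ)) := by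
  classical
  apply le2
  intro m p
  rw [blk, fib_apply, top_apply, Prod.Lex.le_iff]
  by_cases hm : m = l
  · subst hm
    exact Or.inl h
  · rw [if_neg hm]
    rcases (hr m).lt_or_eq with h | h
    · exact Or.inl h
    · exact Or.inr ⟨h, le_refl _⟩

end Fib

section FibHom

variable {A : Type*} [Group A] [Lattice A]
variable {Λ Θ : Type*} [LinearOrder Λ] [LinearOrder Θ]

/-- Acting in the fibres by given actions. -/
def fibHom (σ : Λ → A →* Aut Θ) : A →* Aut (Λ ×ₗ Θ) where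
  toFun x := fib (fun l => σ l x)
  map_one' := by
    have : (fun l => σ l 1) = (fun _ : Λ => (1 : Aut Θ)) := by funext l; exact map_one _
    rw [this, fib_one]
  map_mul' x y := by
    have : (fun l => σ l (x * y)) = (fun l => σ l x * σ l y) := by
      funext l; exact map_mul _ _ _
    rw [this, fib_mul]

theorem fibHom_apply (σ : Λ → A →* Aut Θ) (x : A) : fibHom σ x = fib (fun l => σ l x) := rfl

theorem fibHom_isLHom {σ : Λ → A →* Aut Θ} (h : ∀ l, IsLHom (σ l)) : IsLHom (fibHom σ) := by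
  intro x y
  rw [fibHom_apply, fibHom_apply, fibHom_apply, ← fib_sup]
  congr 1
  funext l
  exact h l x y

/-- Acting on the first coordinate. -/
def topHom (ρ : A →* Aut Λ) : A →* Aut (Λ ×ₗ Θ) where
  toFun x := top (ρ x)
  map_one' := by rw [map_one, top_one]
  map_mul' x y := by rw [map_mul, top_mul]

theorem topHom_apply (ρ : A →* Aut Λ) (x : A) :
    (topHom ρ : A →* Aut (Λ ×ₗ Θ)) x = top (ρ x) := rfl

theorem topHom_isLHom {ρ : A →* Aut Λ} (h : IsLHom ρ) :
    IsLHom (topHom ρ : A →* Aut (Λ ×ₗ Θ)) := by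
  intro x y
  rw [topHom_apply, topHom_apply, topHom_apply, h, top_sup]

open Classical in
/-- Acting in one fibre. -/
noncomputable def blkHom (l : Λ) (ρ : A →* Aut Θ) : A →* Aut (Λ ×ₗ Θ) :=
  fibHom (fun m => if m = l then ρ else 1)

theorem blkHom_apply (l : Λ) (ρ : A →* Aut Θ) (x : A) : blkHom l ρ x = blk l (ρ x) := by
  classical
  rw [blkHom, fibHom_apply, blk]
  congr 1
  funext m
  split_ifs <;> rfl

theorem blkHom_isLHom {l : Λ} {ρ : A →* Aut Θ} (h : IsLHom ρ) : IsLHom (blkHom l ρ) := by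
  classical
  apply fibHom_isLHom
  intro m
  split_ifs
  · exact h
  · exact isLHom_one

theorem blk_one (l : Λ) : blk l (1 : Aut Θ) = 1 := by
  classical
  rw [blk, ← fib_one]
  congr 1
  funext m
  split_ifs <;> rfl

theorem blk_eq_one {l : Λ} {s : Aut Θ} (h : blk l s = 1) : s = 1 := by
  classical
  apply Aut.ext
  intro p
  have h1 : blk l s (toLex (l, p)) = (1 : Aut (Λ ×ₗ Θ)) (toLex (l, p)) := by rw [h]
  rw [blk, fib_apply, if_pos rfl, Aut.one_apply] at h1
  exact congrArg (fun x => (ofLex x).2) h1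

theorem fib_eq_one {σ : Λ → Aut Θ} (h : fib σ = 1) (l : Λ) : σ l = 1 := by
  apply Aut.ext
  intro p
  have h1 : fib σ (toLex (l, p)) = (1 : Aut (Λ ×ₗ Θ)) (toLex (l, p)) := by rw [h]
  rw [fib_apply, Aut.one_apply] at h1
  exact congrArg (fun x => (ofLex x).2) h1

end FibHom

end Pool.Agent.Y56.AB
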